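import Pool.Agent.P.MP_2b866c_nt.Exist

/-!
Every infinite set of odd integers that is invariant under the accelerated `3x+1` map, up to
finitely many exceptions, has a positive natural density.
-/

set_option autoImplicit false

open Filter Topology Finset Pool.Agent.P.MP_2b866c_nt

namespace Pool.Agent.Results.MP_2b866c_nt.InvariantDensity

open Classical in
/-- Indicator of the integers whose odd part lies in `S`. -/
noncomputable def ind (S : Set ℕ) (N : ℕ) : ℝ := if ∃ i, ∃ m ∈ S, N = 2 ^ i * m then 1 else 0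

lemma ind_two {S : Set ℕ} (hodd : ∀ m ∈ S, Odd m) (N : ℕ) : ind S (2 * N) = ind S N := by
  have : (∃ i, ∃ m ∈ S, 2 * N = 2 ^ i * m) ↔ ∃ i, ∃ m ∈ S, N = 2 ^ i * m := by
    constructor
    · rintro ⟨i, m, hm, h⟩
      rcases i with _ | i
      · have := Nat.odd_iff.1 (hodd m hm)
        simp at h; omega
      · refine ⟨i, m, hm, ?_⟩
        rw [pow_succ', mul_assoc] at h; omega
    · rintro ⟨i, m, hm, h⟩
      exact ⟨i + 1, m, hm, by rw [h]; ring⟩
  unfold ind; rw [propext this]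

lemma ind_pow {S : Set ℕ} (hodd : ∀ m ∈ S, Odd m) (e N : ℕ) : ind S (2 ^ e * N) = ind S N := by
  induction e with
  | zero => simp
  | succ e ih => rw [pow_succ', mul_assoc, ind_two hodd, ih]

open Classical in
lemma ind_odd {S : Set ℕ} {N : ℕ} (hN : Odd N) : ind S N = if N ∈ S then 1 else 0 := by
  have : (∃ i, ∃ m ∈ S, N = 2 ^ i * m) ↔ N ∈ S := by
    constructor
    · rintro ⟨i, m, hm, h⟩
      rcases i with _ | i
      · simp at h; rwa [h]
      · have := Nat.odd_iff.1 hN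
        rw [pow_succ', mul_assoc] at h; omega
    · exact fun h => ⟨0, N, h, by simp⟩
  unfold ind; rw [propext this]

lemma ind_three {S : Set ℕ} (hodd : ∀ m ∈ S, Odd m) {N : ℕ} (hN : Odd N)
    (h : N ∈ S ↔ Cmap N ∈ S) : ind S (3 * N + 1) = ind S N := by
  have h1 : 3 * N + 1 = 2 ^ padicValNat 2 (3 * N + 1) * Cmap N :=
    (Nat.mul_div_cancel' pow_padicValNat_dvd).symm
  rw [h1, ind_pow hodd, ind_odd hN, ind_odd (C_step hN).1, propext h]

open Classical in
lemma count_odd {S : Set ℕ} (hodd : ∀ m ∈ S, Odd m) (n : ℕ) : ∑ N ∈ Icc 1 n, 1 * ind S N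
    = ∑ N ∈ Icc 1 n, (if N ∈ S then 1 else 0) + ∑ N ∈ Icc 1 (n / 2), 1 * ind S N := by
  induction n with
  | zero => simp
  | succ n ih =>
    rw [sum_Icc_succ_top (Nat.le_add_left 1 n), sum_Icc_succ_top (Nat.le_add_left 1 n), ih]
    rcases Nat.even_or_odd' n with ⟨k, rfl | rfl⟩
    · rw [ind_odd (odd_two_mul_add_one k), show (2 * k + 1) / 2 = 2 * k / 2 by omega]; ring
    · rw [show (2 * k + 1 + 1) / 2 = k + 1 by omega, sum_Icc_succ_top (Nat.le_add_left 1 k),
        show (2 * k + 1) / 2 = k by omega, show 2 * k + 1 + 1 = 2 * (k + 1) by ring,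
        ind_two hodd, if_neg fun h => by have := Nat.odd_iff.1 (hodd _ h); omega]
      ring

/-- Let `S` be an infinite set of odd positive integers such that `m ∈ S ↔ C(m) ∈ S` for all but
finitely many odd `m`, where `C(m) = (3m+1)/2^e`.  Then `S` has a positive natural density. -/
theorem result (S : Set ℕ) (hodd : ∀ m ∈ S, Odd m) (hinf : S.Infinite)
    (hS : {m : ℕ | Odd m ∧
      ¬ (m ∈ S ↔ (3 * m + 1) / 2 ^ padicValNat 2 (3 * m + 1) ∈ S)}.Finite) :
    ∃ d : ℝ, 0 < d ∧ Tendsto (fun x : ℝ => 2 / x * (Set.ncard {m : ℕ | m ∈ S ∧ (m : ℝ) ≤ x} : ℝ))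
      atTop (𝓝 d) := by
  classical
  obtain ⟨K, hK⟩ := hS.bddAbove
  have hK' : ∀ N, Odd N → K + 1 ≤ N → ind S (3 * N + 1) = ind S N := fun N hN h =>
    ind_three hodd hN (by
      by_contra hc
      have := hK (show N ∈ _ from ⟨hN, hc⟩)
      omega)
  have hf : TInv (K + 1) (ind S) := by
    refine ⟨fun N => ?_, fun N => ?_, fun N hN => ?_⟩
    · unfold ind; split_ifs <;> norm_num
    · unfold ind; split_ifs <;> norm_num
    · rw [← ind_two hodd]
      unfold T
      split_ifs with h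
      · rw [show 2 * (N / 2) = N by omega]
      · rw [show 2 * ((3 * N + 1) / 2) = 3 * N + 1 by omega, hK' N (Nat.odd_iff.2 (by omega)) hN]
  obtain ⟨m, hm, hmK⟩ := hinf.exists_gt K
  obtain ⟨d, hd, h⟩ := density hf (m := m) hmK (by
    rw [hK' m (hodd m hm) hmK, ind_odd (hodd m hm), if_pos hm])
  refine ⟨d, hd, ?_⟩
  have h2 := (h.const_mul 2).sub (h.comp (tendsto_id.atTop_div_const (show (0 : ℝ) < 2 by norm_num)))
  rw [show 2 * d - d = d by ring] at h2
  refine h2.congr' ?_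
  filter_upwards [eventually_gt_atTop 0] with x hx
  have e1 : {m : ℕ | m ∈ S ∧ (m : ℝ) ≤ x} = ↑((Icc 1 ⌊x⌋₊).filter (fun N => N ∈ S)) := by
    ext N
    simp only [Set.mem_ofPred_eq, coe_filter, mem_Icc, Nat.le_floor_iff hx.le]
    exact ⟨fun h => ⟨⟨(hodd N h.1).pos, h.2⟩, h.1⟩, fun h => ⟨h.2, h.1.2⟩⟩
  rw [e1, Set.ncard_coe_finset, card_filter]
  simp only [Function.comp, id, aS, Sm]
  rw [count_odd hodd, Nat.floor_div_ofNat]
  push_cast
  field_simp
  ring

end Pool.Agent.Results.MP_2b866c_nt.InvariantDensity
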