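import Pool.Agent.P.MP_2b866c_nt.Height

set_option autoImplicit false

open Filter Topology Classical Pool.Agent.P.MP_2b866c_nt

namespace Pool.Agent.Results.MP_2b866c_nt.NormalOrder

/-- For every `ε > 0`, the odd `m` of finite height with
`|h(m) - 2 log m / log(16/9)| > ε log m` have natural density zero. -/
theorem result (ε : ℝ) (hε : 0 < ε) :
    Tendsto (fun x : ℕ => (((Finset.Icc 1 x).filter (fun m : ℕ => Odd m ∧ FiniteHeight m ∧
      ε * Real.log m < |(height m : ℝ) - 2 * Real.log m / Real.log (16 / 9)|)).card : ℝ) / x)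
      atTop (𝓝 0) :=
  normal_order ε hε

end Pool.Agent.Results.MP_2b866c_nt.NormalOrder
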