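import Pool.Agent.P.MP_2b866c_nt.Poly.Mean

set_option autoImplicit false

open Filter Asymptotics Pool.Agent.P.MP_2b866c_nt

namespace Pool.Agent.Results.MP_2b866c_nt.PolyCriterion

/-- Let `F x` be the set of odd `m ≤ x` of finite height and let `A > 0`.  Equivalent:
(a) the average of the height over `F x` is asymptotic to `2 log x / log (16/9)`;
(b) the total deviation of `h(m)` from `2 log m / log (16/9)` over `F x` is `o(x log x)`;
(c) the heights with `h(m) > A m^(1/20)` contribute `o(x log x)` to the sum over `F x`. -/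
theorem result (A : ℝ) (hA : 0 < A) (F : ℝ → Finset ℕ)
    (hF : ∀ (x : ℝ) (m : ℕ), m ∈ F x ↔ (m : ℝ) ≤ x ∧ Odd m ∧ FiniteHeight m) :
    List.TFAE [
      IsEquivalent atTop (fun x : ℝ => (∑ m ∈ F x, (height m : ℝ)) / ((F x).card : ℝ))
        (fun x : ℝ => 2 * Real.log x / Real.log (16 / 9)),
      IsLittleO atTop
        (fun x : ℝ => ∑ m ∈ F x, |(height m : ℝ) - 2 * Real.log m / Real.log (16 / 9)|)
        (fun x : ℝ => x * Real.log x),
      IsLittleO atTop
        (fun x : ℝ => ∑ m ∈ (F x).filter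
          (fun m : ℕ => A * (m : ℝ) ^ (1 / 20 : ℝ) < (height m : ℝ)), (height m : ℝ))
        (fun x : ℝ => x * Real.log x)] := by
  classical
  obtain rfl : F = Poly.Fs := by
    ext x m
    rw [hF, Poly.Fs, Finset.mem_filter, Finset.mem_Icc]
    refine and_congr_left fun h => ⟨fun h1 => ⟨h.1.pos, Nat.le_floor h1⟩, fun h1 => ?_⟩
    exact (Nat.le_floor_iff' h.1.pos.ne').1 h1.2
  have e : (fun x : ℝ => ∑ m ∈ (Poly.Fs x).filter
      (fun m : ℕ => A * (m : ℝ) ^ (1 / 20 : ℝ) < (height m : ℝ)), (height m : ℝ)) = Poly.tp A := by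
    ext x
    rw [Poly.tp, Poly.Fs, Finset.filter_filter]
    refine Finset.sum_congr (Finset.filter_congr fun m _ =>
      ⟨fun h => ⟨h.1.1, h.2⟩, fun h => ⟨⟨h.1, ?_⟩, h.2⟩⟩) fun _ _ => rfl
    have h0 : (0 : ℝ) < height m := lt_of_le_of_lt (by positivity) h.2
    have h1 : 0 < height m := by exact_mod_cast h0
    exact Nat.nonempty_of_pos_sInf h1
  rw [e]
  tfae_have 1 ↔ 2 := Poly.mean_iff
  tfae_have 2 ↔ 3 := ⟨fun h => Poly.tp_small hA (Poly.tl_of_dev h), Poly.dev_of_tp hA⟩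
  tfae_finish

end Pool.Agent.Results.MP_2b866c_nt.PolyCriterion
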