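import Pool.Agent.P.MP_2b866c_nt.Back.Count

/-!
A positive proportion of the odd integers reach `1` (or any odd `a` prime to `3`) under the
accelerated `3x+1` map, and do so after the conjectured number of steps.
-/

set_option autoImplicit false

namespace Pool.Agent.Results.MP_2b866c_nt.PosDensity

open Finset Pool.Agent.P.MP_2b866c_nt.Back

lemma od_spec {m : ℕ} (hm : 0 < m) : m = 2 ^ padicValNat 2 m * od m ∧ Odd (od m) := by
  have h1 : 2 ^ padicValNat 2 m ∣ m := pow_padicValNat_dvd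
  have h2 : m = 2 ^ padicValNat 2 m * od m := (Nat.mul_div_cancel' h1).symm
  refine ⟨h2, ?_⟩
  rw [← Nat.not_even_iff_odd, even_iff_two_dvd]
  rintro ⟨t, ht⟩
  apply pow_succ_padicValNat_not_dvd (p := 2) hm.ne'
  exact ⟨t, by rw [pow_succ, mul_assoc, ← ht, ← h2]⟩

lemma exists_scale (I : ℕ) (y : ℝ) (hy : U I < y ^ 2) :
    ∃ i, I ≤ i ∧ U i < y ^ 2 ∧ y ^ 2 ≤ U (i + 1) := by
  classical
  have hex : ∃ e, y ^ 2 ≤ U (I + e + 1) := by
    refine ⟨⌈y ^ 2⌉₊, ?_⟩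
    set n := I + ⌈y ^ 2⌉₊ + 1 with hn
    have a1 := Nat.le_ceil (y ^ 2)
    have a2 : n < 3 ^ n := Nat.lt_pow_self (by norm_num)
    have a3 : 3 ^ n ≤ 3 ^ (n ^ 3) :=
      Nat.pow_le_pow_right (by norm_num) (Nat.le_self_pow (by norm_num) n)
    have a4 : ((⌈y ^ 2⌉₊ : ℕ) : ℝ) ≤ 3 ^ (n ^ 3) := by
      exact_mod_cast (by omega : ⌈y ^ 2⌉₊ ≤ 3 ^ (n ^ 3))
    have a5 : (3 : ℝ) ^ (n ^ 3) ≤ U n :=
      le_mul_of_one_le_left (by positivity) (one_le_pow₀ (by norm_num))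
    linarith
  refine ⟨I + Nat.find hex, by omega, ?_, Nat.find_spec hex⟩
  rcases Nat.eq_zero_or_pos (Nat.find hex) with h | h
  · rw [h]; exact hy
  · have := Nat.find_min hex (m := Nat.find hex - 1) (by omega)
    rw [show I + (Nat.find hex - 1) + 1 = I + Nat.find hex by omega] at this
    linarith

lemma log_est {i l : ℕ} (hi : 244 ≤ i) {y D z : ℝ} (hy : 0 < y) (h1 : U i < y ^ 2)
    (h2 : y ^ 2 ≤ U (i + 1)) (hl1 : i ^ 4 ≤ 2 * l + i ^ 3) (hl2 : 2 * l ≤ i ^ 4 + 41 * i ^ 3)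
    (hD : 16 * D ≤ i) (hz : |z - Real.log y| ≤ D) :
    |(l : ℝ) - 2 * z / Real.log (16 / 9)| ≤ 8 * (21 + 4 * D) * z ^ (3 / 4 : ℝ) := by
  have hn4 : (i + 1) ^ 4 = i ^ 4 + (4 * i ^ 3 + 6 * i ^ 2 + 4 * i + 1) := by ring
  have hn3 : (i + 1) ^ 3 = i ^ 3 + 3 * i ^ 2 + 3 * i + 1 := by ring
  have p1 : 244 * i ≤ i ^ 2 := by rw [pow_two]; exact Nat.mul_le_mul_right _ hi
  have p2 : 244 * i ^ 2 ≤ i ^ 3 := by
    rw [show i ^ 3 = i * i ^ 2 by ring]; exact Nat.mul_le_mul_right _ hi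
  have p4 : (((i + 1) ^ 4 : ℕ) : ℝ) ≤ (i : ℝ) ^ 4 + 5 * (i : ℝ) ^ 3 := by
    exact_mod_cast (by omega : (i + 1) ^ 4 ≤ i ^ 4 + 5 * i ^ 3)
  have p3 : (((i + 1) ^ 3 : ℕ) : ℝ) ≤ 2 * (i : ℝ) ^ 3 := by
    exact_mod_cast (by omega : (i + 1) ^ 3 ≤ 2 * i ^ 3)
  have hl1' : (i : ℝ) ^ 4 ≤ 2 * l + (i : ℝ) ^ 3 := by exact_mod_cast hl1
  have hl2' : 2 * (l : ℝ) ≤ (i : ℝ) ^ 4 + 41 * (i : ℝ) ^ 3 := by exact_mod_cast hl2
  have hi1 : (1 : ℝ) ≤ i := by exact_mod_cast (by omega : 1 ≤ i)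
  have hi3 : (1 : ℝ) ≤ (i : ℝ) ^ 3 := one_le_pow₀ hi1
  have hi4 : (i : ℝ) ≤ (i : ℝ) ^ 4 := le_self_pow₀ hi1 (by norm_num)
  have hD0 : 0 ≤ D := (abs_nonneg _).trans hz
  set L := Real.log (4 / 3) with hL
  have hL1 : 1 / 4 ≤ L := by
    have := Real.one_sub_inv_le_log_of_pos (show (0 : ℝ) < 4 / 3 by norm_num)
    norm_num at this ⊢; exact this
  have hL0 : 0 < L := by linarith
  have h30 : 0 ≤ Real.log 3 := Real.log_nonneg (by norm_num)
  have h32 : Real.log 3 ≤ 2 := by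
    have := Real.log_le_sub_one_of_pos (show (0 : ℝ) < 3 by norm_num); linarith
  have h16 : Real.log (16 / 9) = 2 * L := by
    rw [show (16 / 9 : ℝ) = (4 / 3) ^ 2 by norm_num, Real.log_pow]; norm_num [hL]
  have hU : ∀ i : ℕ, Real.log (U i) = ((i ^ 4 : ℕ) : ℝ) * L + ((i ^ 3 : ℕ) : ℝ) * Real.log 3 := by
    intro i
    rw [U, Real.log_mul (by positivity) (by positivity), Real.log_pow, Real.log_pow]
  have hU0 : ∀ i, 0 < U i := fun i => by unfold U; positivity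
  have b1 := Real.log_le_log (hU0 i) h1.le
  have b2 := Real.log_le_log (by positivity) h2
  rw [Real.log_pow, hU] at b1 b2
  push_cast at b1
  have c1 : (i : ℝ) ^ 4 * L ≤ 2 * Real.log y := by
    have : 0 ≤ (i : ℝ) ^ 3 * Real.log 3 := by positivity
    linarith
  have c2 : 2 * Real.log y ≤ ((i : ℝ) ^ 4 + 21 * (i : ℝ) ^ 3) * L := by
    have a1 := mul_le_mul_of_nonneg_right p4 hL0.le
    have a2 := mul_le_mul p3 h32 h30 (by positivity)
    have a3 := mul_le_mul_of_nonneg_left hL1 (show 0 ≤ 16 * (i : ℝ) ^ 3 by positivity)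
    norm_num only at b2
    linarith
  obtain ⟨z1, z2⟩ := abs_le.1 hz
  have d1 : D ≤ 4 * D * (i : ℝ) ^ 3 * L := by
    have : 1 ≤ 4 * (i : ℝ) ^ 3 * L := by nlinarith
    nlinarith
  have e1 : |(l : ℝ) - 2 * z / Real.log (16 / 9)| ≤ (21 + 4 * D) * (i : ℝ) ^ 3 := by
    rw [h16, mul_div_mul_left _ _ (by norm_num), abs_le]
    have f1 := mul_le_mul_of_nonneg_right hl1' hL0.le
    have f2 := mul_le_mul_of_nonneg_right hl2' hL0.le
    have f3 : 0 ≤ (i : ℝ) ^ 3 * L := by positivity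
    constructor
    · have : z / L ≤ l + (21 + 4 * D) * (i : ℝ) ^ 3 := by
        rw [div_le_iff₀ hL0]; linarith
      linarith
    · have : l - (21 + 4 * D) * (i : ℝ) ^ 3 ≤ z / L := by
        rw [le_div_iff₀ hL0]; linarith
      linarith
  have e2 : (i : ℝ) ^ 3 ≤ 8 * z ^ (3 / 4 : ℝ) := by
    have g1 : ((i : ℝ) / 2) ^ 4 ≤ z := by
      have := mul_le_mul_of_nonneg_left hL1 (show 0 ≤ (i : ℝ) ^ 4 by positivity)
      rw [div_pow]; linarith
    have g2 := Real.rpow_le_rpow (by positivity) g1 (show (0 : ℝ) ≤ 3 / 4 by norm_num)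
    rw [← Real.rpow_natCast, ← Real.rpow_mul (by positivity),
      show ((4 : ℕ) : ℝ) * (3 / 4) = ((3 : ℕ) : ℝ) by norm_num, Real.rpow_natCast, div_pow] at g2
    linarith
  refine e1.trans ?_
  have := mul_le_mul_of_nonneg_left e2 (show 0 ≤ 21 + 4 * D by positivity)
  linarith

/-- For every odd `a` prime to `3` there are `c > 0` and `K` such that for all large `x` at least
`c x` odd integers `m ≤ x` reach `a` under `n ↦ (3n+1)/2^e`, the first time after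
`h = 2 log m / log (16/9) + O((log m)^(3/4))` steps.  For `a = 1`, `h` is the height of `m`. -/
theorem result (a : ℕ) (ha : Odd a) (h3 : ¬ 3 ∣ a) :
    ∃ c : ℝ, 0 < c ∧ ∃ K : ℝ, ∀ᶠ x : ℝ in Filter.atTop,
      c * x ≤ (Set.ncard {m : ℕ | (m : ℝ) ≤ x ∧ Odd m ∧ ∃ h : ℕ,
        IsLeast {k : ℕ | 1 ≤ k ∧
          (fun n : ℕ => (3 * n + 1) / 2 ^ padicValNat 2 (3 * n + 1))^[k] m = a} h ∧
        |(h : ℝ) - 2 * Real.log m / Real.log (16 / 9)| ≤ K * Real.log m ^ (3 / 4 : ℝ)} : ℝ) := by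
  classical
  obtain ⟨B, c, i1, hB, hc, hi1, hcount⟩ := count a (Nat.odd_iff.1 ha) h3
  have hB' : (0 : ℝ) < B := by exact_mod_cast hB
  obtain ⟨E, hE⟩ : ∃ E : ℕ, E = ⌈8 * B / c⌉₊ + 1 := ⟨_, rfl⟩
  have hE0 : (0 : ℝ) < E := by exact_mod_cast (by omega : 0 < E)
  have hE1 : 8 * B / c ≤ 2 ^ E := by
    have a1 := Nat.le_ceil (8 * B / c)
    have a2 : E < 2 ^ E := Nat.lt_two_pow_self
    have a3 : ((⌈8 * B / c⌉₊ : ℕ) : ℝ) ≤ 2 ^ E := by exact_mod_cast (by omega : ⌈8 * B / c⌉₊ ≤ 2 ^ E)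
    linarith
  obtain ⟨D, hD⟩ : ∃ D, D = |Real.log (2 * B)| + |Real.log (c / (4 * 2 ^ E))| := ⟨_, rfl⟩
  obtain ⟨I, hI⟩ : ∃ I : ℕ, I = i1 + ⌈16 * D⌉₊ := ⟨_, rfl⟩
  refine ⟨c / (4 * B * E), by positivity, 8 * (21 + 4 * D), ?_⟩
  filter_upwards [Filter.eventually_ge_atTop (2 * B * (U I + 1))] with x hx
  have hU0 : 0 < U I := by unfold U; positivity
  obtain ⟨y, hy⟩ : ∃ y, x = 2 * B * y := ⟨x / (2 * B), by field_simp⟩
  have hy1 : U I + 1 ≤ y := by
    rw [hy] at hx; exact le_of_mul_le_mul_left hx (by positivity)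
  have hy0 : 0 < y := by linarith
  obtain ⟨i, hi, hU1, hU2⟩ := exists_scale I y (by nlinarith)
  obtain ⟨A, hA1, hA2⟩ := hcount i (by omega) y hy0 hU1 hU2
  rw [← hy] at hA2
  set A1 : Finset ℕ := A.filter (fun m : ℕ => ¬ 2 ^ E ∣ m ∧ c * y / 4 < (m : ℝ)) with hA1def
  have hcard : c * y / 2 ≤ A1.card := by
    have s1 : A ⊆ A1 ∪ (Ioc 0 ⌊x⌋₊).filter (fun m => 2 ^ E ∣ m) ∪ Ioc 0 ⌊c * y / 4⌋₊ := by
      intro m hm
      obtain ⟨m0, m1, _⟩ := hA2 m hm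
      simp only [hA1def, mem_union, mem_filter, mem_Ioc]
      by_cases d1 : 2 ^ E ∣ m
      · exact Or.inl (Or.inr ⟨⟨m0, Nat.le_floor m1.le⟩, d1⟩)
      by_cases d2 : c * y / 4 < m
      · exact Or.inl (Or.inl ⟨hm, d1, d2⟩)
      · exact Or.inr ⟨m0, Nat.le_floor (not_lt.1 d2)⟩
    have s2 := (card_le_card s1).trans
      ((card_union_le _ _).trans (add_le_add (card_union_le _ _) le_rfl))
    rw [Nat.Ioc_filter_dvd_card_eq_div, Nat.card_Ioc, Nat.sub_zero] at s2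
    have s3 : (A.card : ℝ) ≤ A1.card + ((⌊x⌋₊ / 2 ^ E : ℕ) : ℝ) + (⌊c * y / 4⌋₊ : ℕ) := by
      exact_mod_cast s2
    have s4 : ((⌊c * y / 4⌋₊ : ℕ) : ℝ) ≤ c * y / 4 := Nat.floor_le (by positivity)
    have s5 : ((⌊x⌋₊ / 2 ^ E : ℕ) : ℝ) ≤ c * y / 4 := by
      refine Nat.cast_div_le.trans ?_
      have a1 : ((⌊x⌋₊ : ℕ) : ℝ) ≤ x := Nat.floor_le (by rw [hy]; positivity)
      push_cast
      rw [div_le_iff₀ (by positivity)]
      rw [div_le_iff₀ hc] at hE1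
      have := mul_le_mul_of_nonneg_left hE1 hy0.le
      linarith
    linarith
  have hv : ∀ m ∈ A1, padicValNat 2 m < E := by
    intro m hm
    by_contra hh
    exact (mem_filter.1 hm).2.1 ((pow_dvd_pow 2 (not_lt.1 hh)).trans pow_padicValNat_dvd)
  have hcard2 : A1.card ≤ (A1.image od).card * E := by
    rw [← card_range E, ← card_product]
    apply card_le_card_of_injOn (fun m => (od m, padicValNat 2 m))
    · intro m hm
      exact mem_coe.2 (mem_product.2 ⟨mem_image_of_mem _ hm, mem_range.2 (hv m hm)⟩)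
    · intro m hm m' hm' h
      obtain ⟨h1, h2⟩ := Prod.mk.inj h
      calc m = 2 ^ padicValNat 2 m * od m := (od_spec (hA2 m (mem_filter.1 hm).1).1).1
        _ = 2 ^ padicValNat 2 m' * od m' := by rw [h1, h2]
        _ = m' := (od_spec (hA2 m' (mem_filter.1 hm').1).1).1.symm
  have hfin : c / (4 * B * E) * x ≤ ((A1.image od).card : ℝ) := by
    have a1 : (A1.card : ℝ) ≤ (A1.image od).card * E := by exact_mod_cast hcard2
    rw [hy, show c / (4 * B * E) * (2 * B * y) = c * y / 2 / E by field_simp; norm_num,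
      div_le_iff₀ hE0]
    linarith
  refine hfin.trans ?_
  rw [← Set.ncard_coe_finset]
  apply Nat.cast_le.2
  apply Set.ncard_le_ncard
  · intro m' hm'
    obtain ⟨m, hm, rfl⟩ := mem_image.1 (mem_coe.1 hm')
    obtain ⟨hmA, _, hm2⟩ := mem_filter.1 hm
    obtain ⟨m0, m1, l, l1, l2, l3, l4⟩ := hA2 m hmA
    obtain ⟨o1, o2⟩ := od_spec m0
    have o3 : (od m : ℝ) ≤ m := by exact_mod_cast Nat.div_le_self _ _
    have o4 : (m : ℝ) ≤ 2 ^ E * od m := by
      have : m ≤ 2 ^ E * od m := by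
        calc m = 2 ^ padicValNat 2 m * od m := o1
          _ ≤ _ := Nat.mul_le_mul_right _ (Nat.pow_le_pow_right (by norm_num) (hv m hm).le)
      exact_mod_cast this
    have o5 : (0 : ℝ) < od m := by exact_mod_cast o2.pos
    have p3 : 244 * i ^ 3 ≤ i ^ 4 := by
      rw [show i ^ 4 = i * i ^ 3 by ring]; exact Nat.mul_le_mul_right _ (by omega)
    have p4 := Nat.one_le_pow 3 i (by omega)
    refine ⟨by linarith, o2, l, ⟨⟨by omega, l3⟩, fun k hk => ?_⟩, ?_⟩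
    · by_contra hlt
      exact l4 k (not_le.1 hlt) hk.2
    · apply log_est (by omega) hy0 hU1 hU2 l1 l2
      · have a1 := Nat.le_ceil (16 * D)
        have a2 : ((⌈16 * D⌉₊ : ℕ) : ℝ) ≤ i := by exact_mod_cast (by omega : ⌈16 * D⌉₊ ≤ i)
        linarith
      · have a1 : Real.log (od m) ≤ Real.log (2 * B) + Real.log y := by
          rw [← Real.log_mul (by positivity) hy0.ne', ← hy]
          exact Real.log_le_log o5 (by linarith)
        have a2 : Real.log (c / (4 * 2 ^ E)) + Real.log y ≤ Real.log (od m) := by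
          rw [← Real.log_mul (by positivity) hy0.ne']
          apply Real.log_le_log (by positivity)
          rw [div_mul_eq_mul_div, div_le_iff₀ (by positivity)]
          linarith
        have a3 := le_abs_self (Real.log (2 * B))
        have a4 := neg_abs_le (Real.log (c / (4 * 2 ^ E)))
        have a5 := abs_nonneg (Real.log (2 * B))
        have a6 := abs_nonneg (Real.log (c / (4 * 2 ^ E)))
        rw [abs_le]; constructor <;> linarith
  · exact (Set.finite_Iic ⌊x⌋₊).subset (fun m hm => Nat.le_floor hm.1)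

end Pool.Agent.Results.MP_2b866c_nt.PosDensity
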